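import Pool.Agent.H42.IMeag

open Pool.Agent.H42.IMeag

/-- The non-meager independence number equals the uniformity of the meager ideal. -/
theorem Pool.Agent.Results.MP_fb02e9_lc.Full.result : iM = nonM := iM_eq
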